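import Mathlib
import Pool.Agent.Lib.MP_f80667_ag.Mx.FdB

open PE BE ZC NE KM MX CV IsDedekindDomain NumberField

/-- Zero-cycles on products of elliptic curves and Kummer varieties over `ℚ`, all prime numbers.
Let `E i`, `i < r`, and `W j i`, `i < n j`, `j < k`, `0 < n j`, be elliptic curves over `ℚ`, given by Weierstrass equations with
integral coefficients. Let `X` be the product (`Xm E W`) of the `E i` and of the Kummer varieties of the products of the `W j i`,
`i < n j` (the nonsingular varieties `f_i(x_i) t_m² = f_m(x_m) t_i²` for all `i`, `m`, in the `ℙⁿ⁻¹`-bundle over `(ℙ¹)ⁿ`, `n = n j`,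
with the coordinates `t_i` of weight two in `x_i`, with `f_i = 4 x³ + b₂ x² + 2 b₄ x + b₆` for `W j i`; a K3 surface if `n = 2`).
Let `P` be a set of prime numbers, and let `QmP E W P` be the statement: the kernel `G` of the push-forwards of `F^1_A(X)` to the
`E i` (families of zero-cycles of degree `0` over all places, modulo rational equivalence and, at the infinite places, norms) is
divisible by all `m ≠ 0` with all prime factors in `P`, and the components at all primes `l ∈ P` of an element of the completion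
of `F^1_A(X)` are in the image of `Δ` if and only if this holds for its push-forwards to the `E i`. If `P` is the set of all prime
numbers: `G` is divisible, and the statements Q1 for the curves `E i` imply the statement Q1 for `X`; for `r = 0`: Q1 holds for `X`.
(1) If the discriminants of all curves are squarefree, then `QmP E W P` for `P` = all odd prime numbers.
(2) Let the product of the discriminants be squarefree. Then `QmP E W P` for `P` = all prime numbers in two cases: (a) `k = 0`, for all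
curves but at most one `a₁` is even and `a₃` is odd (the reduction at `2` is supersingular) and for all curves but at most one
the discriminant is negative; (b) `r = 0`, `k = 1`, `n 0 = 2`, `Δ` of the first and `a₁` of the second curve are even (`Ok₂`): Q1 holds
for the Kummer surface `X`.
Let `Eqs N` be the finite set of the equations over `ℤ` with `a₁, a₃ ∈ {0, 1}`, `|a₂| ≤ 1`, `|a₄| ≤ N²`, `|a₆| ≤ N³`
(every elliptic curve over `ℚ` has exactly one minimal equation with `a₁, a₃ ∈ {0, 1}`, `|a₂| ≤ 1`), and let `Nx r k n N P` be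
the number of the families `(E, W)` of equations in `Eqs N` with discriminants `≠ 0` and `QmP E W P`.
(3) Let `P` = all prime numbers. For every `r` there is `c > 0` such that `Nx r 0 n N P ≥ c |Eqs N| ^ r` for all large `N`, and
there is `c > 0` such that `Nx 0 1 (fun _ => 2) N P ≥ c |Eqs N|²` for all large `N`: Q1 holds for a positive proportion of the
Kummer surfaces of products of two elliptic curves over `ℚ`.
(4) For every `ε > 0` there are `L` and a set `S` of equations with discriminants `≠ 0` which contains at least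
`(1 - ε) |Eqs N|` elements of `Eqs N` for all large `N`, such that `QmP E W P` for `P = {l | L < l}` for all `r`, `k`, `n` with
`0 < n j` and all `E i`, `W j i` in `S`. -/
theorem Pool.Agent.Results.MP_f80667_ag.AllPrimes.result :
    (∀ (r k : ℕ) (n : Fin k → ℕ) (E : Fin r → WeierstrassCurve ℤ)
      (W : ∀ j, Fin (n j) → WeierstrassCurve ℤ), (∀ j, 0 < n j) → (∀ i, Squarefree (E i).Δ) →
      (∀ j i, Squarefree (W j i).Δ) →
      QmP (fun i => toQ (E i)) (fun j i => toQ (W j i)) {l | l ≠ 2}) ∧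
    (∀ (r : ℕ) (n : Fin 0 → ℕ) (E : Fin r → WeierstrassCurve ℤ)
      (W : ∀ j, Fin (n j) → WeierstrassCurve ℤ), Squarefree (∏ i, (E i).Δ) →
      (∀ i j, i ≠ j → (Even (E i).a₁ ∧ Odd (E i).a₃) ∨ (Even (E j).a₁ ∧ Odd (E j).a₃)) →
      (∀ i j, i ≠ j → (E i).Δ < 0 ∨ (E j).Δ < 0) →
      QmP (fun i => toQ (E i)) (fun j i => toQ (W j i)) Set.univ) ∧
    (∀ (E : Fin 0 → WeierstrassCurve ℤ) (W : Fin 1 → Fin 2 → WeierstrassCurve ℤ),
      Ok₂ (W 0 0) (W 0 1) →
      QmP (n := fun _ => 2) (fun i => toQ (E i)) (fun j i => toQ (W j i)) Set.univ) ∧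
    (∀ (r : ℕ) (n : Fin 0 → ℕ), ∃ c : ℝ, 0 < c ∧ ∃ N₀ : ℕ, ∀ N ≥ N₀,
      c * ((Eqs N).ncard : ℝ) ^ r ≤ (Nx r 0 n N Set.univ : ℝ)) ∧
    (∃ c : ℝ, 0 < c ∧ ∃ N₀ : ℕ, ∀ N ≥ N₀,
      c * ((Eqs N).ncard : ℝ) ^ 2 ≤ (Nx 0 1 (fun _ => 2) N Set.univ : ℝ)) ∧
    ∀ ε : ℝ, 0 < ε → ∃ (L N₀ : ℕ) (S : Set (WeierstrassCurve ℤ)),
      (∀ N ≥ N₀, (1 - ε) * ((Eqs N).ncard : ℝ) ≤ ((Eqs N ∩ S).ncard : ℝ)) ∧ (∀ A ∈ S, A.Δ ≠ 0) ∧
      ∀ (r k : ℕ) (n : Fin k → ℕ) (E : Fin r → WeierstrassCurve ℤ)
        (W : ∀ j, Fin (n j) → WeierstrassCurve ℤ), (∀ j, 0 < n j) → (∀ i, E i ∈ S) →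
        (∀ j i, W j i ∈ S) → QmP (fun i => toQ (E i)) (fun j i => toQ (W j i)) {l | L < l} :=
  ⟨fun _ _ _ _ _ hn hE hW => main_msq hn hE hW, fun _ _ _ W h1 h2 h3 => qm_ok ⟨h1, h2, h3⟩ W,
    fun _ _ h => qm_two h, nm_zero, nm_two, mx_eps⟩
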