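import Mathlib
import Pool.Agent.Lib.MP_f80667_ag.Dc.StaLP
import Pool.Agent.Lib.MP_f80667_ag.Dc.Dgn

open PE BE ZC CV DX IsDedekindDomain NumberField

/-- Zero-cycles on varieties dominated by products of curves.
Let `F` be a number field, `F'/F` a field extension, `X` a nonsingular projective variety over `F` of dimension `d`, given by homogeneous
polynomials `f_i` in `N` variables (`Nsp f d`: the ideal of the `f_i` is prime, the homogeneous coordinate ring has transcendence degree
`d + 1`, and at every point over the algebraic closure the tangent space of the cone has dimension at most `d + 1`), `C_1, ..., C_n`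
smooth projective curves over `F'` of any genus with a point at infinity (`Crv`: the affine ring `A` of the complement of the point, with
the order `d` at infinity) and `Φ` a dominant rational map of degree `D ≥ 1` from `C_1 × ... × C_n` to `X` over `F'`: a vector of `N`
polynomials over `F'` in the functions on the affine curves such that for a homogeneous polynomial `h` over `F` which does not vanish
on `X` every point of `X` with `h ≠ 0` over every algebraically closed extension of `F'` has exactly `D` preimages (`Dom f C Φ h D`).
Let `E` be a number field which contains `F'` and `l` a prime number. A finite place `v` of `F` is called good for `l` (`Gdm C E v l`) if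
one of the following conditions holds.
(a) Every curve `C_i` has good reduction at all places of `E` above `v` (`Gdv`: smooth models over the local rings, with a point at
infinity) or is a Fermat curve of some degree `e`, where `e` is `4` or an odd prime number (`Gdf`, `Frm`; the degrees may be different).
(b) There is a finite extension `K` of `F_v` of degree prime to `l` which contains `F'` such that for all `i` and all finite extensions
`M` of `K` every class of degree `0` on `C_i` over `M` is divisible by `l` over an unramified extension of `M` and is modulo `l` a norm
from every given unramified extension of `M` (`Unl`, `Unx`, in terms of the cycles on the affine curve modulo the divisors of quotients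
of functions; true if the Jacobian of `C_i` has good reduction over `K` and `v` is not above `l`).
(1) At all finite places of `F` except finitely many all curves `C_i` have good reduction at the places of `E` above `v`.
There is a number `l₀` with the following properties.
(2) Let `l > l₀` be a prime number and `v` good for `l`; `v` may lie above `l`. If the class of the divisor of the coordinates
number `i` of the preimages of a point of `X` with `h ≠ 0` does not depend on the point (`Cst`, this is the case if `X` has no global
`1`-forms), then the group of the zero-cycles of degree `0` on `X_v` modulo rational equivalence is `l`-divisible (`Zdv`). Let `A` be a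
projective variety over `F` with a group law whose differences are computed by finitely many vectors of polynomials (`Gok A`), and `M` a
morphism `φ` from `X` to `A`, given by finitely many vectors of polynomials (`M.Ok`), such that the pull-back by `Φ` of a zero-cycle `z`
of degree `0` on the part `h ≠ 0` of `X` has principal push-forwards to all `C_i` if the sum of `φ (z)` in `A` is `0` (`Pbk`, this is the
case for the Albanese map). Then the kernel `T(X_v)` of the sum of `φ` on the zero-cycles of degree `0` on `X_v` modulo rational
equivalence is `l`-divisible (`Dvl`).
(3) Let `P` be a set of prime numbers `l > l₀`. Under the condition `Cst`, if for all `l` in `P` the group of the zero-cycles of degree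
`0` on `X_v` modulo rational equivalence is `l`-divisible at the (finitely many) places `v` which are not good for `l`, then `F^1_A(X)`
(families of zero-cycles of degree `0` over all places, modulo rational equivalence and, at the infinite places, norms) is divisible by
all `m ≠ 0` with all prime factors in `P`, and the components at the primes in `P` of every element of the completion of `F^1_A(X)` are
in the image of `Δ` (`QPr`): Q1 holds for `X` at these primes. For `A` and `M` as in (2), if `T(X_v)` is `l`-divisible for all `l` in
`P` and the places `v` which are not good for `l`, then the adelic kernel (`Alx`) is divisible by all `m ≠ 0` with all prime factors in `P`,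
and the components at the primes in `P` of an element `z` of the completion of `F^1_A(X)` are in the image of `Δ` if and only if the
sums of `z` are, modulo `m` times the sums of zero-cycles of degree `0` on `X_v`, for all such `m` and all finite `v`, those of an
element of the completion of `F^1(X)` (`Smx`).
So nothing is assumed in (3) if every `C_i` is a Fermat curve of degree `4` or of odd prime degree or has good reduction at all places
of `E` (for example a curve `y ^ 2 = x ^ p + c` with a prime number `p`, `c ≠ 0` and `E` large enough); in general the assumption at the
finitely many other places is satisfied by almost all `l` (theorem of Saito and Sato).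
(4) The diagonal hypersurface `X` with the equation `a_0 x_0 ^ e + ... + a_(r+1) x_(r+1) ^ e = 0` over `F`, all `a_i ≠ 0`, of dimension
`r ≥ 2` and of degree `e`, where `e` is `4` or an odd prime number, is dominated by a product of Fermat curves of degree `e` and
satisfies `Cst`: for `X` Q1 holds at all prime numbers `l > e [F : ℚ] + 1` (`QPr`). -/
theorem Pool.Agent.Results.MP_f80667_ag.DominatedByCurves.result (F F' E : Type) [Field F]
    [NumberField F] [Field F'] [Field E] [NumberField E] [Algebra F F'] [Algebra F E]
    [Algebra F' E] [IsScalarTower F F' E] (N n d D : ℕ) (ι : Type)
    (f : ι → MvPolynomial (Fin N) F) (C : Fin n → Crv F')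
    (Φ : Fin N → MvPolynomial (Σ i, (C i).A) F') (h : MvPolynomial (Fin N) F) (hf : Nsp f d)
    (h0 : D ≠ 0) (hD : Dom f C Φ h D) :
    {v : HeightOneSpectrum (𝓞 F) | ¬ Gdv C E v}.Finite ∧ (∃ l₀ : ℕ,
      (∀ (v : HeightOneSpectrum (𝓞 F)) (l : ℕ), l.Prime → l₀ < l → Gdm C E v l →
        (Cst f C Φ h → Zdv (GX.Xf f) (FK F v) l) ∧
        ∀ (N' k k' : ℕ) (ι' : Type) (A : GX.Gv F N' k' ι') (M : GX.Mf f A k), Gok A → M.Ok →
          Pbk C Φ h M → Dvl M (FK F v) l) ∧
      ∀ P : Set ℕ, (∀ l ∈ P, l.Prime ∧ l₀ < l) →
        (Cst f C Φ h →
          (∀ v : HeightOneSpectrum (𝓞 F), ∀ l ∈ P, ¬ Gdm C E v l → Zdv (GX.Xf f) (FK F v) l) →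
          QPr (GX.Xf f) P) ∧
        ∀ (N' k k' : ℕ) (ι' : Type) (A : GX.Gv F N' k' ι') (M : GX.Mf f A k), Gok A → M.Ok →
          Pbk C Φ h M →
          (∀ v : HeightOneSpectrum (𝓞 F), ∀ l ∈ P, ¬ Gdm C E v l → Dvl M (FK F v) l) →
          (∀ m : ℕ, m ≠ 0 → Sf P m → ∀ c : Fam (GX.Xf f), Alx M c →
            ∃ c' : Fam (GX.Xf f), Alx M c' ∧ c.cl = m • c'.cl) ∧
          ∀ z : LHat (FA (GX.Xf f)), ImDeS P z ↔ Smx M P z) ∧
    ∀ (r e : ℕ) (a : Fin (r + 2) → F), (∀ i, a i ≠ 0) → 2 ≤ r → (e = 4 ∨ e.Prime ∧ Odd e) →
      QPr (GX.Xf fun _ : Unit => ∑ i, MvPolynomial.C (a i) * MvPolynomial.X i ^ e)
        {l | l.Prime ∧ e * Module.finrank ℚ F + 1 < l} :=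
  ⟨(main_m hf h0 hD).1, (main_m hf h0 hD).2, diag F⟩
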