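import Mathlib
import Pool.Agent.Lib.MP_f80667_ag.Do.StaP

open PE BE ZC NE DN DS IsDedekindDomain NumberField

/-- Zero-cycles on varieties dominated by products of elliptic curves.
Let `F'/F` be number fields, `X` a nonsingular projective variety over `F` of dimension `d`, given by homogeneous polynomials `f_i` in
`N` variables (`Nsp f d`: the ideal of the `f_i` is prime, the homogeneous coordinate ring has transcendence degree `d + 1`, and at
every point over the algebraic closure the tangent space of the cone has dimension at most `d + 1`), `W_1, ..., W_n` elliptic curves
over `F'` and `Φ` a dominant rational map of degree `D ≥ 1` from `W_1 × ... × W_n` to `X` over `F'`: a vector of `N` polynomials over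
`F'` in the affine coordinates such that for a homogeneous polynomial `h` over `F` which does not vanish on `X` every point of `X`
with `h ≠ 0` over every algebraically closed extension of `F'` has exactly `D` preimages (`Dom f W Φ h D`). Let `Prm F W D` be the set of the prime
numbers `l` which do not divide `2 D [F' : F]`, are unramified in `F'`, and such that the `W_i` have good or multiplicative reduction
at all places above `l`, for `l = 3` at all places, and `l` does not divide `n` if `- n`, `n > 0`, is the valuation of the
`j`-invariant of a `W_i` at a place.
(1) All prime numbers except finitely many are in `Prm F W D`.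
(2) If the sum of the coordinates number `i` of the preimages of a point of `X` with `h ≠ 0` does not depend on the point (`Cst`, this is the case
if `X` has no global `1`-forms), then `F^1_A(X)` (families of zero-cycles of degree `0` over all places, modulo rational equivalence
and, at the infinite places, norms) is divisible by all `m ≠ 0` with all prime factors in `Prm F W D`, and the components at the primes
in `Prm F W D` of every element of the completion of `F^1_A(X)` are in the image of `Δ` (`QPr`): Q1 holds for `X` at these primes.
(3) Let `A` be a projective variety over `F` with a group law whose differences are computed by finitely many vectors of polynomials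
(`Gok A`), and `M` a morphism `φ` from `X` to `A`, given by finitely many vectors of polynomials (`M.Ok`), such that the pull-back by
`Φ` of a zero-cycle `z` of degree `0` on the part `h ≠ 0` of `X` has the sum `0` in every `W_i` if the sum of `φ (z)` in `A` is `0`
(`Pbk`, this is the case for the Albanese map). Then for all `l` in `Prm F W D` and all finite places `v` of `F` the kernel `T(X_v)` of
the sum of `φ` on the zero-cycles of degree `0` on `X_v` modulo rational equivalence is divisible by `l` (`Dvl`); the adelic kernel
(`Alx`) is divisible by all `m ≠ 0` with all prime factors in `Prm F W D`; the components at the primes in `Prm F W D` of an element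
`z` of the completion of `F^1_A(X)` are in the image of `Δ` if and only if the sums of `z` are, modulo `m` times the sums of
zero-cycles of degree `0` on `X_v`, for all such `m` and all finite `v`, those of an element of the completion of `F^1(X)` (`Smx`).
(4) Let `F' = F` and let `s_i` be the morphism from `X` to `W_i` which maps a point with `h ≠ 0` to the sum of the coordinates number
`i` of its preimages (`Mor`, `Tra`). For all `m ≠ 0` with all prime factors in `Prm F W D` the map from `F^1_A(X)/m` to the product of the
groups `F^1_A(W_i)/m` is injective, and the components at the primes in `Prm F W D` of an element `z` of the completion of `F^1_A(X)`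
are in the image of `Δ` if and only if this holds for the push-forwards of `z` by the `s_i` (`QsR`): Q1 for the `W_i` at
these primes implies Q1 for `X` at these primes. -/
theorem Pool.Agent.Results.MP_f80667_ag.DominatedByElliptic.result :
    (∀ (F F' : Type) [Field F] [NumberField F] [Field F'] [NumberField F'] [Algebra F F']
      (N n d D : ℕ) (ι : Type) (f : ι → MvPolynomial (Fin N) F) (W : Fin n → WeierstrassCurve F')
      [∀ i, (W i).IsElliptic] (Φ : Fin N → MvPolynomial (Fin n ⊕ Fin n) F')
      (h : MvPolynomial (Fin N) F), Nsp f d → D ≠ 0 → Dom f W Φ h D →
      (∃ l₀ : ℕ, ∀ l : ℕ, l.Prime → l₀ < l → l ∈ Prm F W D) ∧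
      (Cst f W Φ h → QPr (GX.Xf f) (Prm F W D)) ∧
      ∀ (N' k k' : ℕ) (ι' : Type) (A : GX.Gv F N' k' ι') (M : GX.Mf f A k), Gok A → M.Ok →
        Pbk W Φ h M →
        (∀ l ∈ Prm F W D, ∀ v : HeightOneSpectrum (𝓞 F), Dvl M (FK F v) l) ∧
        (∀ m : ℕ, m ≠ 0 → Sf (Prm F W D) m → ∀ c : Fam (GX.Xf f), Alx M c →
          ∃ c' : Fam (GX.Xf f), Alx M c' ∧ c.cl = m • c'.cl) ∧
        ∀ z : LHat (FA (GX.Xf f)), ImDeS (Prm F W D) z ↔ Smx M (Prm F W D) z) ∧
    ∀ (F : Type) [Field F] [NumberField F] (N n d D : ℕ) (ι : Type)
      (f : ι → MvPolynomial (Fin N) F) (W : Fin n → WeierstrassCurve F) [∀ i, (W i).IsElliptic]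
      (Φ : Fin N → MvPolynomial (Fin n ⊕ Fin n) F) (h : MvPolynomial (Fin N) F)
      (s : ∀ i, Mor (GX.Xf f) (Ev (W i))), Nsp f d → Dom f W Φ h D → Tra f W Φ h s →
        QsR s (Prm F W D) :=
  ⟨fun _ _ _ _ _ _ _ _ _ _ _ _ _ _ _ _ _ hf h0 hD => main_A hf h0 hD,
    fun _ _ _ _ _ _ _ _ _ _ _ _ _ _ hf hD hs => main_B hf hD hs⟩
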