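import Mathlib
import Pool.Agent.Lib.MP_f80667_ag.Ev.Pc

open EY ZC BE PE IsDedekindDomain NumberField

/-- **The Albanese kernel at every finite place, and the adelic group.** Let `F` be a number field, `X` the nonsingular geometrically
irreducible projective variety over `F` with the equations `f_i` (`Nsp`: the `f_i` are homogeneous, they generate a prime ideal with a
prime radical over the algebraic closure `F'`, the transcendence degree of the homogeneous coordinate ring is `d + 1` and the rank of the
Jacobian matrix is at least `N - d - 1` at all points over `F'`). Let `A` be a projective variety over `F` with a group law (`Gok`: the
differences of points are given by vectors `m_i` of polynomials, at each pair of points by one of them) and `φ : X → A` a morphism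
(`M.Ok`: given by vectors of polynomials) such that each global `1`-form on `X` over `F'` is the pull-back of an invariant form (`Alb`);
the Albanese map is an example, and if `X` has no global `1`-forms other than `0` then the map to a point is one.

Let `v` be a finite place, `F_v` the completion, `V` the valuation ring of the algebraic closure of `F_v` above the integers (`Va`), `Mx V`
its maximal ideal, and `T` (`Tz`) the set of the `0`-cycles of degree `0` on `X` over `F_v` such that the sum of `φ` is `0`. For an ideal
`I` let `W_I` be the set of the cycles in `T` which are zero modulo `I` (`Uz`): for each point `Q` the sum of the coefficients at the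
points with primitive coordinates congruent to those of `Q` modulo `I` is `0`; `W_a` belongs to the ideal of the multiples of `a`. All
relations between cycles are meant modulo rational equivalence (`cl`).

1. At ANY finite place there is `a₀ ≠ 0` such that for all multiples `a ≠ 0` of `a₀` in `V` (`Str`):
   * for all multiples `b ≠ 0` of `a` and all `n ≥ 1` each cycle in `W_a` is `n` times a cycle in `W_b`, so `W_a` generates a divisible
     group which does not depend on `a`;
   * each cycle in `T` is the sum of a cycle in `W_a` and a torsion cycle in `T`, and for the cycles supported on points with at most `D`
     conjugates the torsion cycle is in a finite set which depends on `D` and `a` only;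
   * if the special fibre of the closure of `X` over the integers at `v` is generically reduced (`Gng`), then each cycle in `W_M`, with
     `M = Mx V` (zero reduction), supported on points with smooth reduction (`Sr`) is the sum of a cycle in `W_a` and of an element of a
     finite set of torsion cycles of `p`-power order in `W_M`, for the residue characteristic `p`.
2. At all but finitely many finite places each cycle in `W_M` is `n` times a cycle in `W_M`, for all `n ≥ 1`.
3. Let `L` (`Lp`) be the set of the odd prime numbers `l` such that `T` is `l`-divisible at all finite places. If all prime factors of
   `n ≥ 1` are in `L`, then each family of cycles, one of degree `0` at each place of `F`, with sums `0` (`Alx`) has the same class in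
   `F^1_A(X)` as `n` times such a family. An element `z` of the completion of `F^1_A(X)` has the same components at `L` as the image
   under `Δ` of an element of the completion of `F^1(X)` if and only if there is an `x` in the completion of `F^1(X)` such that for all
   `n` with prime factors in `L` the sums of representatives of `x` and `z` modulo `n` differ by `n` times the sum of a cycle of degree
   `0`, at all finite places (`Smx`). So at `L` the image of `Δ` is determined by the sums in `A`; if `A` is a point then it is everything.

By (2) and known results (Kato and Saito for varieties over finite fields, Saito and Sato for the divisibility by primes other than `p`),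
which are not part of this proof, `L` contains all but finitely many prime numbers when `φ` is the Albanese map. -/
theorem Pool.Agent.Results.MP_f80667_ag.EveryPlace.result (F : Type) [Field F] [NumberField F]
    (N N' k k' d : ℕ) (ι ι' : Type) [Finite ι] (f : ι → MvPolynomial (Fin N) F)
    (A : GX.Gv F N' k' ι') (M : GX.Mf f A k) (hf : Nsp f d) (hA : Gok A) (hM : M.Ok)
    (h : Alb M) :
    (∀ (v : HeightOneSpectrum (𝓞 F)) (V : ValuationSubring (AlgebraicClosure (FK F v))),
      Va V → Str M V d) ∧
    {v : HeightOneSpectrum (𝓞 F) | ¬ ∀ V : ValuationSubring (AlgebraicClosure (FK F v)), Va V →
      ∀ n : ℕ, n ≠ 0 →
        Tz M (FK F v) ∩ Uz V (Mx V) ⊆ Mu n (Tz M (FK F v) ∩ Uz V (Mx V))}.Finite ∧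
    (∀ n : ℕ, n ≠ 0 → Sf (Lp M) n → ∀ c : Fam (GX.Xf f), Alx M c →
      ∃ c' : Fam (GX.Xf f), Alx M c' ∧ c.cl = n • c'.cl) ∧
    ∀ z : LHat (FA (GX.Xf f)), ImDeS (Lp M) z ↔ Smx M (Lp M) z :=
  main hf hA hM h
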